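import Pool.Agent.W792.WA.Stm6
import Pool.Agent.W688.LL.Osc

set_option autoImplicit false

namespace Pool.Agent.W174.WA.KA

open MeasureTheory Pool.Agent.W792.WA Pool.Agent.W688.LL.Osc

theorem k1_eq (t : ℝ) (n : ℤ) : k1 t n =
    ∫ s in (-(1 / 4 : ℝ))..(-(1 / 4) + 1), Complex.exp (Complex.I * (ps t n s : ℂ)) := by
  rw [← circ]
  rfl

theorem k1_le_one (t : ℝ) (n : ℤ) : ‖k1 t n‖ ≤ 1 := by
  rw [k1_eq]
  have h := intervalIntegral.norm_integral_le_of_norm_le_const
    (a := (-(1 / 4 : ℝ))) (b := -(1 / 4) + 1) (C := 1)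
    (f := fun s => Complex.exp (Complex.I * (ps t n s : ℂ))) (by
      intro s _
      rw [mul_comm, Complex.norm_exp_ofReal_mul_I])
  refine h.trans ?_
  norm_num

theorem main : S_KA := by
  refine ⟨100, by norm_num, ?_⟩
  intro t n
  have ht : 0 ≤ |t| := abs_nonneg t
  have hp : 0 < (1 + |t|) ^ (1 / 3 : ℝ) := Real.rpow_pos_of_pos (by linarith) _
  rw [le_div_iff₀ hp]
  have hcube : ((1 + |t|) ^ (1 / 3 : ℝ)) ^ 3 = 1 + |t| := by
    rw [← Real.rpow_natCast, ← Real.rpow_mul (by linarith)]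
    norm_num
  by_cases hs : |t| ≤ 20000
  · have h1 : (1 + |t|) ^ (1 / 3 : ℝ) ≤ 100 := by
      by_contra hcon
      push Not at hcon
      have : (100 : ℝ) ^ 3 < ((1 + |t|) ^ (1 / 3 : ℝ)) ^ 3 :=
        pow_lt_pow_left₀ hcon (by norm_num) (by norm_num)
      rw [hcube] at this
      linarith
    calc ‖k1 t n‖ * (1 + |t|) ^ (1 / 3 : ℝ) ≤ 1 * 100 :=
          mul_le_mul (k1_le_one t n) h1 hp.le (by norm_num)
      _ = 100 := by norm_num
  · push Not at hs
    have ht0 : 0 < |t| := by linarith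
    set δ : ℝ := (8192 / |t|) ^ (1 / 3 : ℝ) with hδ
    have hb : 0 < 8192 / |t| := by positivity
    have hδ0 : 0 < δ := Real.rpow_pos_of_pos hb _
    have hδ3 : δ ^ 3 = 8192 / |t| := by
      rw [hδ, ← Real.rpow_natCast, ← Real.rpow_mul hb.le]
      norm_num
    have hδ1 : δ ≤ 1 := by
      apply Real.rpow_le_one hb.le _ (by norm_num)
      rw [div_le_one ht0]
      linarith
    have hM : (32 / δ) ^ 2 * (8 / δ) ≤ |t| := by
      have e : (32 / δ) ^ 2 * (8 / δ) = 8192 / δ ^ 3 := by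
        field_simp
        norm_num
      rw [e, hδ3]
      have : 8192 / (8192 / |t|) = |t| := by field_simp
      rw [this]
    have hk : ‖k1 t n‖ ≤ δ := by
      rw [k1_eq]
      exact one_dim hδ0 hδ1 t hM n
    refine (mul_le_mul_of_nonneg_right hk hp.le).trans ?_
    by_contra hcon
    push Not at hcon
    have h3 : (100 : ℝ) ^ 3 < (δ * (1 + |t|) ^ (1 / 3 : ℝ)) ^ 3 :=
      pow_lt_pow_left₀ hcon (by norm_num) (by norm_num)
    rw [mul_pow, hδ3, hcube, div_mul_eq_mul_div, lt_div_iff₀ ht0] at h3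
    linarith

end Pool.Agent.W174.WA.KA
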