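import Pool.Agent.W174.WA.PCutL

/-!
# Restriction of a model to the divisor of `F`, Artin-Schreier case
-/

set_option autoImplicit false
set_option linter.unusedVariables false
set_option linter.unusedSectionVars false

universe u

open Polynomial

namespace Pool.Agent.W174.WA

open Pool.Agent.W558 Pool.Agent.W973.CUT Pool.Agent.W973.CUT2 Pool.Agent.W177.WD

section chart

variable {k N : Type u} [Field k] [Field N] [Algebra k N] {T I : Type} [Fintype I]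

/-- type a: existence of the tangent vector -/
lemma va (p : ℕ) [Fact p.Prime] [CharP k p] (M : LM (⊥ : Subalgebra k N) ⊤ T I) (F : N)
    (Q : Subalgebra k N) (y h r : T → N) (c μ : I → ℤ) (hP : PAS p M F Q y h r c μ) (t : T)
    (h1 : ∀ i, c i ≤ 0 ∨ (M.x t i)⁻¹ ∈ M.A t) (m0 : ∀ i, 0 ≤ -((p : ℤ) - 1) * μ i)
    (κ : Type u) [Field κ] [Algebra k κ] (φ : M.A t →ₐ[k] κ)
    (hX : (∏ i, M.x t i ^ (-c i)) * y t ^ p ∈ M.A t)
    (hY : (∏ i, M.x t i ^ (-((p : ℤ) - 1) * μ i - c i)) * y t ∈ M.A t)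
    (hf : (∏ i, M.x t i ^ (-c i)) * y t ^ p -
      (∏ i, M.x t i ^ (-((p : ℤ) - 1) * μ i - c i)) * y t - h t ∈ M.A t)
    (hφ : φ ⟨_, hf⟩ = 0) :
    ∃ D : TV φ, D.D ⟨_, hf⟩ ≠ 0 ∧
      ∀ i, φ ⟨M.x t i, M.xA t i⟩ = 0 → D.D ⟨M.x t i, M.xA t i⟩ = 0 := by
  have hx0 := M.x0 t
  have hp0 : (p : κ) = 0 := Pool.Agent.W177.WD.cast_zero (k := k) p κ
  have hp2 : (2 : ℤ) ≤ p := by exact_mod_cast (Fact.out : p.Prime).two_le
  have he : ∀ i, 0 ≤ -((p : ℤ) - 1) * μ i - c i ∨ (M.x t i)⁻¹ ∈ M.A t := by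
    intro i
    rcases h1 i with h | h
    · left
      have := m0 i
      omega
    · exact Or.inr h
  have e1 : (⟨_, hf⟩ : M.A t) = ⟨_, hX⟩ - ⟨_, hY⟩ - ⟨h t, hP.hA t⟩ := rfl
  have hLT : ∀ v : LT φ (ox (y t) (M.x t)), ∀ i, φ ⟨M.x t i, M.xA t i⟩ = 0 →
      v.D.D ⟨M.x t i, M.xA t i⟩ = 0 := by
    intro v i hi
    have : v.D.D ⟨M.x t i, M.xA t i⟩ = φ ⟨M.x t i, M.xA t i⟩ * v.e (some i) :=
      v.hx (some i) (M.xA t i)
    rw [this, hi, zero_mul]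
  by_cases hc : ∃ i, φ ⟨M.x t i, M.xA t i⟩ = 0 ∧ (μ i < 0 ∨ c i < 0)
  · -- case A
    obtain ⟨i, hi, hmc⟩ := hc
    have hni := not_inv (φ := φ) (hx0 i) (M.xA t i) hi
    have hci : c i ≤ 0 := (h1 i).resolve_right hni
    have hr : φ ⟨r t, hP.rA t⟩ = 0 := by
      rcases hP.ri t κ φ i hmc hi with h | h
      · exact h
      · omega
    have hpos : 0 < -((p : ℤ) - 1) * μ i - c i := by
      rcases hmc with h | h
      · nlinarith
      · have := m0 i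
        omega
    have hz : ZE φ ((∏ i, M.x t i ^ (-((p : ℤ) - 1) * μ i - c i)) * y t) := by
      refine ZE.mul_left (ZE.prod _ (fun j => zpow_mem_of (M.xA t j) (he j)) i ?_) (hP.yA t)
      exact ZE.zpow (hx0 i) (M.xA t i) _ hpos hi
    obtain ⟨v, hv⟩ := hP.ln t κ φ hr
    refine ⟨v.D, ?_, hLT v⟩
    have hz' : φ ⟨_, hY⟩ = 0 := hz.2
    have e2 : φ ⟨_, hX⟩ = φ ⟨h t, hP.hA t⟩ := by
      rw [e1, map_sub, map_sub, hz', sub_zero, sub_eq_zero] at hφ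
      exact hφ
    rw [da p M t (y t) (h t) c μ (hP.yA t) (hP.hA t) m0 h1 κ φ v hX hY hf, hz', e2]
    rw [om, Fintype.sum_option] at hv
    simp only [Option.elim_none, Option.elim_some, Int.cast_zero, zero_mul, zero_add] at hv
    intro h0
    apply hv
    linear_combination -h0
  · -- case B
    push Not at hc
    have hm : ∀ i, φ ⟨M.x t i, M.xA t i⟩ = 0 → μ i = 0 ∧ c i = 0 := by
      intro i hi
      have h3 := hc i hi
      have h4 := hP.m0 i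
      have h5 : c i ≤ 0 := (h1 i).resolve_right (not_inv (φ := φ) (hx0 i) (M.xA t i) hi)
      omega
    have hU : UN φ (∏ i, M.x t i ^ (-((p : ℤ) - 1) * μ i - c i)) := by
      refine UN.prod _ _ fun i _ => UN.zpow (hx0 i) (M.xA t i) _ (he i) fun hi => ?_
      rw [(hm i hi).1, (hm i hi).2]
      ring
    rcases hP.vt t κ φ with hy | ⟨D, hDy, hDx, hDh⟩
    · obtain ⟨v, hv1, hv2, hv3⟩ := hP.vl t κ φ
      refine ⟨v.D, ?_, hLT v⟩
      have hU2 : φ ⟨_, hY⟩ ≠ 0 := (hU.mul (UN.of_inv (hP.y0 t) (hP.yA t) hy)).2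
      rw [da p M t (y t) (h t) c μ (hP.yA t) (hP.hA t) m0 h1 κ φ v hX hY hf, hv1, hv2, sub_zero,
        sub_zero, hv3, mul_zero, neg_zero, mul_one, zero_sub]
      exact neg_ne_zero.2 hU2
    · refine ⟨D, ?_, fun i _ => hDx i⟩
      have hLx : ∀ i, LG D (M.x t i) 0 := fun i => ⟨M.xA t i, by rw [hDx i, mul_zero]⟩
      have hc' : ∀ i, 0 ≤ -c i ∨ (M.x t i)⁻¹ ∈ M.A t := by
        intro i
        rcases h1 i with h | h
        · left; omega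
        · exact Or.inr h
      have L1 : LG D (∏ i, M.x t i ^ (-c i)) (∑ i, ((-c i : ℤ) : κ) * 0) :=
        LG.prod _ _ _ fun i _ => (hLx i).zpow (hx0 i) _ (hc' i)
      have L2 : LG D (∏ i, M.x t i ^ (-((p : ℤ) - 1) * μ i - c i))
          (∑ i, ((-((p : ℤ) - 1) * μ i - c i : ℤ) : κ) * 0) :=
        LG.prod _ _ _ fun i _ => (hLx i).zpow (hx0 i) _ (he i)
      simp only [mul_zero, Finset.sum_const_zero] at L1 L2
      have hyp : D.D (⟨y t, hP.yA t⟩ ^ p) = 0 := by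
        rw [D_pow, hp0, zero_mul]
      have e2 : (⟨_, hX⟩ : M.A t) = ⟨_, L1.mem⟩ * ⟨y t, hP.yA t⟩ ^ p := rfl
      have e3 : (⟨_, hY⟩ : M.A t) = ⟨_, L2.mem⟩ * ⟨y t, hP.yA t⟩ := rfl
      have hU2 : φ ⟨_, L2.mem⟩ ≠ 0 := hU.2
      rw [e1, map_sub, map_sub, hDh, e2, e3, D.leib, D.leib, hyp, L1.eq, L2.eq, mul_zero, mul_zero,
        mul_zero, add_zero]
      intro h0
      have h7 : φ ⟨_, L2.mem⟩ * D.D ⟨y t, hP.yA t⟩ = 0 := by linear_combination -h0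
      exact mul_ne_zero hU2 hDy h7

/-- type b: existence of the tangent vector -/
lemma vb (p : ℕ) [Fact p.Prime] [CharP k p] (M : LM (⊥ : Subalgebra k N) ⊤ T I) (F : N)
    (Q : Subalgebra k N) (y h r : T → N) (c μ : I → ℤ) (hP : PAS p M F Q y h r c μ) (t : T)
    (h1 : ∀ i, 0 ≤ c i ∨ (M.x t i)⁻¹ ∈ M.A t) (h2 : (y t)⁻¹ ∈ M.A t)
    (m0 : ∀ i, 0 ≤ -((p : ℤ) - 1) * μ i)
    (κ : Type u) [Field κ] [Algebra k κ] (φ : M.A t →ₐ[k] κ)
    (hX : (∏ i, M.x t i ^ c i) * (y t)⁻¹ ^ p ∈ M.A t)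
    (hY : (∏ i, M.x t i ^ (-((p : ℤ) - 1) * μ i)) * ((y t)⁻¹ ^ p * y t) ∈ M.A t)
    (hf : 1 - (∏ i, M.x t i ^ (-((p : ℤ) - 1) * μ i)) * ((y t)⁻¹ ^ p * y t) -
      (∏ i, M.x t i ^ c i) * (y t)⁻¹ ^ p * h t ∈ M.A t)
    (hφ : φ ⟨_, hf⟩ = 0) :
    ∃ D : TV φ, D.D ⟨_, hf⟩ ≠ 0 ∧
      ∀ i, φ ⟨M.x t i, M.xA t i⟩ = 0 → D.D ⟨M.x t i, M.xA t i⟩ = 0 := by
  have hx0 := M.x0 t
  have hp2 : (2 : ℤ) ≤ p := by exact_mod_cast (Fact.out : p.Prime).two_le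
  have e1 : (⟨_, hf⟩ : M.A t) = 1 - ⟨_, hY⟩ - ⟨_, hX⟩ * ⟨h t, hP.hA t⟩ := rfl
  have hLT : ∀ v : LT φ (ox (y t) (M.x t)), ∀ i, φ ⟨M.x t i, M.xA t i⟩ = 0 →
      v.D.D ⟨M.x t i, M.xA t i⟩ = 0 := by
    intro v i hi
    have : v.D.D ⟨M.x t i, M.xA t i⟩ = φ ⟨M.x t i, M.xA t i⟩ * v.e (some i) :=
      v.hx (some i) (M.xA t i)
    rw [this, hi, zero_mul]
  have hUy : UN φ ((y t)⁻¹ ^ p * y t) :=
    (UN.pow (UN.of_inv (inv_ne_zero (hP.y0 t)) h2 (by rw [inv_inv]; exact hP.yA t)) p).mul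
      (UN.of_inv (hP.y0 t) (hP.yA t) h2)
  by_cases hc : ∃ i, φ ⟨M.x t i, M.xA t i⟩ = 0 ∧ μ i < 0
  · -- case 2
    obtain ⟨i, hi, hmi⟩ := hc
    have hpos : 0 < -((p : ℤ) - 1) * μ i := by nlinarith
    have hz : ZE φ ((∏ i, M.x t i ^ (-((p : ℤ) - 1) * μ i)) * ((y t)⁻¹ ^ p * y t)) := by
      refine ZE.mul_left (ZE.prod _ (fun j => zpow_mem_of (M.xA t j) (Or.inl (m0 j))) i ?_) hUy.1
      exact ZE.zpow (hx0 i) (M.xA t i) _ hpos hi
    have hz' : φ ⟨_, hY⟩ = 0 := hz.2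
    have e2 : φ ⟨_, hX⟩ * φ ⟨h t, hP.hA t⟩ = 1 := by
      rw [e1, map_sub, map_sub, map_one, map_mul, hz', sub_zero, sub_eq_zero] at hφ
      exact hφ.symm
    have hcj : c i ≤ 0 := by
      by_contra hcon
      push Not at hcon
      have h3 : ZE φ ((∏ i, M.x t i ^ c i) * (y t)⁻¹ ^ p) := by
        refine ZE.mul_left (ZE.prod _ (fun j => zpow_mem_of (M.xA t j) (h1 j)) i ?_)
          ((M.A t).pow_mem h2 p)
        exact ZE.zpow (hx0 i) (M.xA t i) _ hcon hi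
      have h4 : φ ⟨_, hX⟩ = 0 := h3.2
      rw [h4, zero_mul] at e2
      exact zero_ne_one e2
    have hr : φ ⟨r t, hP.rA t⟩ = 0 := by
      rcases hP.ri t κ φ i (Or.inl hmi) hi with h | h
      · exact h
      · omega
    obtain ⟨v, hv⟩ := hP.ln t κ φ hr
    refine ⟨v.D, ?_, hLT v⟩
    rw [db p M t (y t) (h t) c μ (hP.y0 t) (hP.yA t) (hP.hA t) m0 h1 h2 κ φ v hX hY hf, hz',
      zero_mul, neg_zero, zero_sub]
    exact neg_ne_zero.2 (mul_ne_zero (left_ne_zero_of_mul_eq_one e2) hv)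
  · -- case 1
    push Not at hc
    have hm : ∀ i, φ ⟨M.x t i, M.xA t i⟩ = 0 → μ i = 0 := by
      intro i hi
      have h3 := hc i hi
      have h4 := hP.m0 i
      omega
    have hU : UN φ (∏ i, M.x t i ^ (-((p : ℤ) - 1) * μ i)) := by
      refine UN.prod _ _ fun i _ => UN.zpow (hx0 i) (M.xA t i) _ (Or.inl (m0 i)) fun hi => ?_
      rw [hm i hi]
      ring
    obtain ⟨v, hv1, hv2, hv3⟩ := hP.vl t κ φ
    refine ⟨v.D, ?_, hLT v⟩
    have hU2 : φ ⟨_, hY⟩ ≠ 0 := (hU.mul hUy).2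
    have hom0 : om v (fun o => o.elim 0 c) (hP.hA t) = 0 := by
      rw [om, Fintype.sum_option]
      simp only [Option.elim_none, Option.elim_some, Int.cast_zero, zero_mul, zero_add]
      rw [hv1, hv2, mul_zero, add_zero]
    rw [db p M t (y t) (h t) c μ (hP.y0 t) (hP.yA t) (hP.hA t) m0 h1 h2 κ φ v hX hY hf, hom0, hv3,
      mul_one, mul_zero, sub_zero]
    exact neg_ne_zero.2 hU2

/-- The local equation of the divisor. -/
lemma chart (p : ℕ) [Fact p.Prime] [CharP k p] (M : LM (⊥ : Subalgebra k N) ⊤ T I) (F : N)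
    (Q : Subalgebra k N) (y h r : T → N) (c μ : I → ℤ) (hPS : PAS p M F Q y h r c μ)
    (hF : Fin2 M y c) (t : T) :
    ∃ f ∈ M.A t, ∃ u, u ≠ 0 ∧ u ∈ Q ∧ u⁻¹ ∈ Q ∧ F = u * f ∧
      ∀ (κ : Type u) [Field κ] [Algebra k κ] (φ : M.A t →ₐ[k] κ) (hf : f ∈ M.A t),
        φ ⟨f, hf⟩ = 0 → ∃ D : TV φ, D.D ⟨f, hf⟩ ≠ 0 ∧
          ∀ i, φ ⟨M.x t i, M.xA t i⟩ = 0 → D.D ⟨M.x t i, M.xA t i⟩ = 0 := by
  have hx0 := M.x0 t
  have hy0 := hPS.y0 t
  have hp2 : (2 : ℤ) ≤ p := by exact_mod_cast (Fact.out : p.Prime).two_le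
  have m0 : ∀ i, 0 ≤ -((p : ℤ) - 1) * μ i := by
    intro i
    have := hPS.m0 i
    nlinarith
  have hxQ : ∀ i, M.x t i ∈ Q := fun i => hPS.AQ t (M.xA t i)
  have hyQ : y t ∈ Q := hPS.AQ t (hPS.yA t)
  have hz : ∀ (n : ℤ) i, M.x t i ^ n ∈ Q := fun n i =>
    zpow_mem_of (hxQ i) (Or.inr (hPS.xQ t i))
  have hP0 : ∀ m : I → ℤ, ∏ i, M.x t i ^ m i ≠ 0 := fun m =>
    Finset.prod_ne_zero_iff.2 fun i _ => zpow_ne_zero _ (hx0 i)
  have hPQ : ∀ m : I → ℤ, ∏ i, M.x t i ^ m i ∈ Q := fun m => Q.prod_mem fun i _ => hz _ i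
  have hPQ' : ∀ m : I → ℤ, (∏ i, M.x t i ^ m i)⁻¹ ∈ Q := fun m => by
    rw [← Finset.prod_inv_distrib]
    refine Q.prod_mem fun i _ => ?_
    rw [← zpow_neg]
    exact hz _ i
  have hneg : ∀ m : I → ℤ, ∏ i, M.x t i ^ (-m i) = (∏ i, M.x t i ^ m i)⁻¹ := fun m => by
    rw [← Finset.prod_inv_distrib]
    exact Finset.prod_congr rfl fun i _ => zpow_neg _ _
  have hsub : ∀ m m' : I → ℤ, ∏ i, M.x t i ^ (m i - m' i) =
      (∏ i, M.x t i ^ m i) * (∏ i, M.x t i ^ m' i)⁻¹ := fun m m' => by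
    rw [← hneg, ← Finset.prod_mul_distrib]
    refine Finset.prod_congr rfl fun i _ => ?_
    rw [← zpow_add₀ (hx0 i), sub_eq_add_neg]
  rcases hF t with h1 | ⟨h1, h2⟩
  · -- first case
    have hXA : (∏ i, M.x t i ^ (-c i)) * y t ^ p ∈ M.A t := by
      refine (M.A t).mul_mem ((M.A t).prod_mem fun i _ => ?_) ((M.A t).pow_mem (hPS.yA t) p)
      refine zpow_mem_of (M.xA t i) ?_
      rcases h1 i with h | h
      · left; omega
      · exact Or.inr h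
    have hYA : (∏ i, M.x t i ^ (-((p : ℤ) - 1) * μ i - c i)) * y t ∈ M.A t := by
      refine (M.A t).mul_mem ((M.A t).prod_mem fun i _ => ?_) (hPS.yA t)
      refine zpow_mem_of (M.xA t i) ?_
      rcases h1 i with h | h
      · left
        have := m0 i
        omega
      · exact Or.inr h
    refine ⟨(∏ i, M.x t i ^ (-c i)) * y t ^ p -
      (∏ i, M.x t i ^ (-((p : ℤ) - 1) * μ i - c i)) * y t - h t,
      (M.A t).sub_mem ((M.A t).sub_mem hXA hYA) (hPS.hA t),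
      (∏ i, M.x t i ^ ((p : ℤ) * μ i)) * ∏ i, M.x t i ^ c i,
      mul_ne_zero (hP0 _) (hP0 _), Q.mul_mem (hPQ _) (hPQ _), ?_, ?_, ?_⟩
    · rw [mul_inv]
      exact Q.mul_mem (hPQ' _) (hPQ' _)
    · rw [hneg, hsub (fun i => -((p : ℤ) - 1) * μ i) c]
      have := hP0 c
      conv_lhs => rw [hPS.eq t]
      rw [mul_assoc]
      congr 1
      field_simp
    · intro κ _ _ φ hf hφ
      exact va p M F Q y h r c μ hPS t h1 m0 κ φ hXA hYA hf hφ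
  · -- second case
    have hXA : (∏ i, M.x t i ^ (c i)) * (y t)⁻¹ ^ p ∈ M.A t :=
      (M.A t).mul_mem ((M.A t).prod_mem fun i _ => zpow_mem_of (M.xA t i) (h1 i))
        ((M.A t).pow_mem h2 p)
    have hYA : (∏ i, M.x t i ^ (-((p : ℤ) - 1) * μ i)) * ((y t)⁻¹ ^ p * y t) ∈ M.A t :=
      (M.A t).mul_mem ((M.A t).prod_mem fun i _ => zpow_mem_of (M.xA t i) (Or.inl (m0 i)))
        ((M.A t).mul_mem ((M.A t).pow_mem h2 p) (hPS.yA t))
    refine ⟨1 - (∏ i, M.x t i ^ (-((p : ℤ) - 1) * μ i)) * ((y t)⁻¹ ^ p * y t) -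
      (∏ i, M.x t i ^ (c i)) * (y t)⁻¹ ^ p * h t,
      (M.A t).sub_mem ((M.A t).sub_mem (M.A t).one_mem hYA) ((M.A t).mul_mem hXA (hPS.hA t)),
      (∏ i, M.x t i ^ ((p : ℤ) * μ i)) * y t ^ p,
      mul_ne_zero (hP0 _) (pow_ne_zero _ hy0), Q.mul_mem (hPQ _) (Q.pow_mem hyQ p), ?_, ?_, ?_⟩
    · rw [mul_inv, ← inv_pow]
      exact Q.mul_mem (hPQ' _) (Q.pow_mem (hPS.yQ t) p)
    · conv_lhs => rw [hPS.eq t]
      have := pow_ne_zero p hy0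
      rw [mul_assoc]
      congr 1
      rw [inv_pow]
      field_simp
    · intro κ _ _ φ hf hφ
      exact vb p M F Q y h r c μ hPS t h1 h2 m0 κ φ hXA hYA hf hφ

end chart

theorem main : WA_pcut.{u} := by
  intro p _ k N K _ _ _ _ _ _ _ T I G _ _ M F Q y h r c μ g Γ hPS hLq hFn hF2 hFQ hF0 π hπ
    hsurj hQ g' hg'
  classical
  have hloc : S2_loc.{u} := loc_main
  have hT := nonempty_T M
  have hAQ := hPS.AQ
  choose f hfA u hu0 huQ huQ' hFu hv using chart p M F Q y h r c μ hPS hF2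
  have hf0 : ∀ t, f t ≠ 0 := by
    intro t h0
    apply hF0
    rw [hFu t, h0, mul_zero]
  have hFπ : pq π F = 0 := by
    rw [pq_of π hFQ, hπ]
    exact ⟨1, Q.one_mem, (mul_one F).symm⟩
  have hfπ : ∀ t, pq π (f t) = 0 := by
    intro t
    have h1 : f t = (u t)⁻¹ * F := by
      rw [hFu t, ← mul_assoc, inv_mul_cancel₀ (hu0 t), one_mul]
    rw [h1, pq_mul π (huQ' t) hFQ, hFπ, mul_zero]
  have hker0 : ∀ a ∈ Q, pq π a = 0 → ∃ r ∈ Q, a = F * r := by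
    intro a ha h0
    rw [pq_of π ha, hπ] at h0
    exact h0
  have hmin : ∀ t, RingHom.ker (qm π (M.A t) (hAQ t)) ∈
      (Ideal.span {(⟨f t, hfA t⟩ : M.A t)}).minimalPrimes := by
    intro t
    refine ⟨⟨RingHom.ker_isPrime _, ?_⟩, ?_⟩
    · rw [Ideal.span_singleton_le_iff_mem, RingHom.mem_ker, qm_apply π (hAQ t) (hfA t)]
      exact Subtype.ext (hfπ t)
    · rintro P'' ⟨hp'', hle''⟩ hPle ⟨a, ha⟩ haker
      have ha0 : pq π a = 0 := by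
        rw [RingHom.mem_ker, qm_apply π (hAQ t) ha] at haker
        exact congrArg Subtype.val haker
      obtain ⟨r, hr, har⟩ := hker0 a (hAQ t ha) ha0
      obtain ⟨α, hα, β, hβ, hβ0, hβQ, hαβ⟩ := hLq t (u t * r) (Q.mul_mem (huQ t) hr)
      have h3 : (⟨β, hβ⟩ : M.A t) * ⟨a, ha⟩ = ⟨f t, hfA t⟩ * ⟨α, hα⟩ := by
        apply Subtype.ext
        change β * a = f t * α
        rw [har, ← hαβ, hFu t]
        ring
      have h4 : (⟨β, hβ⟩ : M.A t) * ⟨a, ha⟩ ∈ P'' := by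
        rw [h3]
        exact P''.mul_mem_right _ (hle'' (Ideal.mem_span_singleton_self _))
      rcases hp''.mem_or_mem h4 with h5 | h5
      · exfalso
        have h6 := hPle h5
        rw [RingHom.mem_ker, qm_apply π (hAQ t) hβ] at h6
        exact pq_ne π hβ0 (hAQ t hβ) hβQ (congrArg Subtype.val h6)
      · exact h5
  have hv0 : ∀ t (κ : Type u) [Field κ] [Algebra k κ] (φ : M.A t →ₐ[k] κ),
      φ ⟨f t, hfA t⟩ = 0 → ∃ D : TV φ, D.D ⟨f t, hfA t⟩ ≠ 0 := by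
    intro t κ _ _ φ hφ
    obtain ⟨δ, h1, -⟩ := hv t κ φ (hfA t) hφ
    exact ⟨δ, h1⟩
  have hker : ∀ t, LK π (M.A t) (f t) := by
    intro t m' hm' hPm'
    have hsm := M.sm t
    have hsq : Algebra.Smooth k (M.A t ⧸ Ideal.span {(⟨f t, hfA t⟩ : M.A t)}) :=
      smooth_quot _ (hv0 t)
    obtain ⟨e, he, h1⟩ := local_ker hloc (k := k) (⟨f t, hfA t⟩ : M.A t)
      (RingHom.ker (qm π (M.A t) (hAQ t))) m' (hmin t) hm' (by
        rintro ⟨a, ha⟩ haker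
        rw [RingHom.mem_ker, qm_apply π (hAQ t) ha] at haker
        exact hPm' a ha (congrArg Subtype.val haker))
    refine ⟨e, he, fun a ha h0 => ?_⟩
    obtain ⟨b', hb'⟩ := h1 ⟨a, ha⟩ (by
      rw [RingHom.mem_ker, qm_apply π (hAQ t) ha]
      exact Subtype.ext h0)
    have h2 : (e : N) * a = f t * b' := congrArg Subtype.val hb'
    rw [h2, mul_div_cancel_left₀ _ (hf0 t)]
    exact b'.2
  have hsm' : ∀ t, Algebra.Smooth k (im π (M.A t) (hAQ t)) := by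
    intro t
    have := M.sm t
    exact smooth_im2 π hloc (hAQ t) (hfA t) (hfπ t) (hmin t) (hv0 t)
  have hK' : ∀ x : N, (∃ a b : Q, π b ≠ 0 ∧ x * b = a) ∨ (∃ a b : Q, π b ≠ 0 ∧ x⁻¹ * b = a) := by
    intro x
    rcases hQ x with h1 | h1
    · left
      exact ⟨⟨x, h1⟩, 1, by rw [map_one]; exact one_ne_zero, by simp⟩
    · right
      exact ⟨⟨x⁻¹, h1⟩, 1, by rw [map_one]; exact one_ne_zero, by simp⟩
  obtain ⟨M', hA', hx'⟩ := exists_model2 π hK' M hAQ hPS.xQ f hfA hf0 hfπ hker hsm'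
    (fun t => snc_option M t (f t) (hfA t) (hv t))
  have hgQ : ∀ b, g b ∈ Q := by
    intro b
    obtain ⟨t⟩ := hT
    obtain ⟨w, h0, h1, h2, h3⟩ := hFn b t
    rw [h3]
    exact Q.mul_mem (hAQ t h1) (Q.prod_mem fun i _ =>
      zpow_mem_of (hAQ t (M.xA t i)) (Or.inr (hPS.xQ t i)))
  refine ⟨T, I, inferInstance, inferInstance, M', Γ, ?_, ?_⟩
  · intro a t
    obtain ⟨w, h0, h1, h2, h3⟩ := hFn a t
    rw [hA', hx']
    refine ⟨pq π w, pq_ne π h0 (hAQ t h1) (hAQ t h2), pq_mem π (hAQ t) h1, ?_, ?_⟩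
    · rw [← pq_inv π h0 (hAQ t h1) (hAQ t h2)]
      exact pq_mem π (hAQ t) h2
    · have h4 : ∀ i, M.x t i ^ Γ a i ∈ Q := fun i =>
        zpow_mem_of (hAQ t (M.xA t i)) (Or.inr (hPS.xQ t i))
      rw [hg' a (hgQ a), ← pq_of π (hgQ a), h3, pq_mul π (hAQ t h1) (Q.prod_mem fun i _ => h4 i),
        pq_prod π _ _ fun i _ => h4 i]
      congr 1
      refine Finset.prod_congr rfl fun i _ => ?_
      exact pq_zpow π (M.x0 t i) (hAQ t (M.xA t i)) (hPS.xQ t i) _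
  · intro t x
    obtain ⟨q, rfl⟩ := hsurj x
    obtain ⟨α, hα, β, hβ, hβ0, hβQ, hαβ⟩ := hLq t q q.2
    rw [hA']
    have h1 : pq π β ≠ 0 := pq_ne π hβ0 (hAQ t hβ) hβQ
    refine ⟨pq π α, pq_mem π (hAQ t) hα, pq π β, pq_mem π (hAQ t) hβ, h1, ?_⟩
    rw [eq_mul_inv_iff_mul_eq₀ h1, ← pq_coe π q, ← pq_mul π q.2 (hAQ t hβ), hαβ]

end Pool.Agent.W174.WA
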