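import Pool.Agent.W558.WA.Stms
import Pool.Agent.W177.WD.PCut

/-!
# Restriction of a model to the divisor of `F`, Artin-Schreier case: the local computation
-/

set_option autoImplicit false
set_option linter.unusedVariables false
set_option linter.unusedSectionVars false

universe u

open Polynomial

namespace Pool.Agent.W174.WA

open Pool.Agent.W558 Pool.Agent.W973.CUT Pool.Agent.W973.CUT2 Pool.Agent.W177.WD

section vals

variable {k N : Type u} [Field k] [Field N] [Algebra k N] {A : Subalgebra k N} {κ : Type u}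
  [Field κ] [Algebra k κ] (φ : A →ₐ[k] κ)

/-- `a` is contained in `A` and has nonzero value. -/
def UN (a : N) : Prop := ∃ ha : a ∈ A, φ ⟨a, ha⟩ ≠ 0

/-- `a` is contained in `A` and has value zero. -/
def ZE (a : N) : Prop := ∃ ha : a ∈ A, φ ⟨a, ha⟩ = 0

variable {φ}

lemma UN.one : UN φ 1 := by
  refine ⟨A.one_mem, ?_⟩
  have e : (⟨1, A.one_mem⟩ : A) = 1 := rfl
  rw [e, map_one]
  exact one_ne_zero

lemma UN.mul {a b : N} (h1 : UN φ a) (h2 : UN φ b) : UN φ (a * b) := by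
  obtain ⟨ha, ha'⟩ := h1
  obtain ⟨hb, hb'⟩ := h2
  refine ⟨A.mul_mem ha hb, ?_⟩
  have e : (⟨a * b, A.mul_mem ha hb⟩ : A) = ⟨a, ha⟩ * ⟨b, hb⟩ := rfl
  rw [e, map_mul]
  exact mul_ne_zero ha' hb'

lemma UN.pow {a : N} (h1 : UN φ a) (n : ℕ) : UN φ (a ^ n) := by
  induction n with
  | zero => rw [pow_zero]; exact UN.one
  | succ n ih => rw [pow_succ]; exact ih.mul h1

lemma UN.of_inv {a : N} (h0 : a ≠ 0) (ha : a ∈ A) (hi : a⁻¹ ∈ A) : UN φ a := by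
  refine ⟨ha, ?_⟩
  have e : (⟨a, ha⟩ : A) * ⟨a⁻¹, hi⟩ = 1 := Subtype.ext (mul_inv_cancel₀ h0)
  intro h
  have h4 : φ ⟨a, ha⟩ * φ ⟨a⁻¹, hi⟩ = 1 := by rw [← map_mul, e, map_one]
  rw [h, zero_mul] at h4
  exact zero_ne_one h4

lemma not_inv {a : N} (h0 : a ≠ 0) (ha : a ∈ A) (h : φ ⟨a, ha⟩ = 0) : a⁻¹ ∉ A := by
  intro hi
  exact (UN.of_inv (φ := φ) h0 ha hi).2 h

lemma UN.prod {I : Type} (s : Finset I) (a : I → N) (h : ∀ i ∈ s, UN φ (a i)) :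
    UN φ (∏ i ∈ s, a i) := by
  classical
  induction s using Finset.induction_on with
  | empty => rw [Finset.prod_empty]; exact UN.one
  | insert b s hb ih =>
    rw [Finset.prod_insert hb]
    exact (h b (Finset.mem_insert_self b s)).mul
      (ih fun i hi => h i (Finset.mem_insert_of_mem hi))

lemma UN.zpow {a : N} (h0 : a ≠ 0) (ha : a ∈ A) (n : ℤ) (hn : 0 ≤ n ∨ a⁻¹ ∈ A)
    (h : φ ⟨a, ha⟩ = 0 → n = 0) : UN φ (a ^ n) := by
  by_cases hz : φ ⟨a, ha⟩ = 0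
  · rw [h hz, zpow_zero]
    exact UN.one
  · rcases le_or_gt 0 n with h1 | h1
    · obtain ⟨m, rfl⟩ := Int.eq_ofNat_of_zero_le h1
      rw [zpow_natCast]
      exact UN.pow ⟨ha, hz⟩ m
    · have hi : a⁻¹ ∈ A := hn.resolve_left (not_le.2 h1)
      obtain ⟨m, hm⟩ := Int.eq_ofNat_of_zero_le (show 0 ≤ -n by omega)
      have h2 : n = -(m : ℤ) := by omega
      rw [h2, zpow_neg, zpow_natCast, ← inv_pow]
      exact UN.pow (UN.of_inv (inv_ne_zero h0) hi (by rw [inv_inv]; exact ha)) m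

lemma ZE.mul_left {a b : N} (h1 : ZE φ a) (hb : b ∈ A) : ZE φ (a * b) := by
  obtain ⟨ha, ha'⟩ := h1
  refine ⟨A.mul_mem ha hb, ?_⟩
  have e : (⟨a * b, A.mul_mem ha hb⟩ : A) = ⟨a, ha⟩ * ⟨b, hb⟩ := rfl
  rw [e, map_mul, ha', zero_mul]

lemma ZE.zpow {a : N} (h0 : a ≠ 0) (ha : a ∈ A) (n : ℤ) (hn : 0 < n)
    (h : φ ⟨a, ha⟩ = 0) : ZE φ (a ^ n) := by
  obtain ⟨m, hm⟩ := Int.eq_ofNat_of_zero_le (show 0 ≤ n - 1 by omega)
  have h2 : n = 1 + (m : ℤ) := by omega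
  rw [h2, zpow_add₀ h0, zpow_one, zpow_natCast]
  exact ZE.mul_left ⟨ha, h⟩ (A.pow_mem ha m)

lemma ZE.prod {I : Type} [Fintype I] (a : I → N) (h : ∀ i, a i ∈ A) (i : I) (hi : ZE φ (a i)) :
    ZE φ (∏ i, a i) := by
  classical
  rw [← Finset.mul_prod_erase Finset.univ a (Finset.mem_univ i)]
  exact hi.mul_left (A.prod_mem fun j _ => h j)

end vals

lemma D_pow {k A κ : Type u} [Field k] [CommRing A] [Algebra k A] [Field κ] [Algebra k κ]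
    {φ : A →ₐ[k] κ} (D : TV φ) (a : A) (n : ℕ) :
    D.D (a ^ n) = (n : κ) * (φ a ^ (n - 1) * D.D a) := by
  induction n with
  | zero => rw [pow_zero, D.D_one, Nat.cast_zero, zero_mul]
  | succ n ih =>
    rw [pow_succ, D.leib, ih, map_pow, Nat.add_sub_cancel]
    rcases n with _ | n
    · simp
    · rw [Nat.add_sub_cancel]
      push_cast
      ring

section chart

variable {k N : Type u} [Field k] [Field N] [Algebra k N] {T I : Type} [Fintype I]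

lemma sum_split {κ : Type u} [Field κ] (p : ℕ) (hp : (p : κ) = 0) (c μ : I → ℤ) (e : I → κ) :
    ∑ i, (((-((p : ℤ) - 1) * μ i - c i : ℤ) : κ)) * e i =
      ∑ i, (μ i : κ) * e i - ∑ i, (c i : κ) * e i := by
  rw [← Finset.sum_sub_distrib]
  refine Finset.sum_congr rfl fun i _ => ?_
  push_cast
  rw [hp]
  ring

lemma sum_split' {κ : Type u} [Field κ] (p : ℕ) (hp : (p : κ) = 0) (μ : I → ℤ) (e : I → κ) :
    ∑ i, (((-((p : ℤ) - 1) * μ i : ℤ) : κ)) * e i = ∑ i, (μ i : κ) * e i := by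
  refine Finset.sum_congr rfl fun i _ => ?_
  push_cast
  rw [hp]
  ring

/-- derivative of the local equation, type a -/
lemma da (p : ℕ) [CharP k p] (M : LM (⊥ : Subalgebra k N) ⊤ T I) (t : T) (y h : N) (c μ : I → ℤ)
    (yA : y ∈ M.A t) (hA : h ∈ M.A t) (m0 : ∀ i, 0 ≤ -((p : ℤ) - 1) * μ i)
    (h1 : ∀ i, c i ≤ 0 ∨ (M.x t i)⁻¹ ∈ M.A t) (κ : Type u) [Field κ] [Algebra k κ]
    (φ : M.A t →ₐ[k] κ) (v : LT φ (ox y (M.x t)))
    (hX : (∏ i, M.x t i ^ (-c i)) * y ^ p ∈ M.A t)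
    (hY : (∏ i, M.x t i ^ (-((p : ℤ) - 1) * μ i - c i)) * y ∈ M.A t)
    (hf : (∏ i, M.x t i ^ (-c i)) * y ^ p -
      (∏ i, M.x t i ^ (-((p : ℤ) - 1) * μ i - c i)) * y - h ∈ M.A t) :
    v.D.D ⟨_, hf⟩ = -(φ ⟨_, hX⟩ * ∑ i, (c i : κ) * v.e (some i)) -
      φ ⟨_, hY⟩ * (v.e none + (∑ i, (μ i : κ) * v.e (some i) - ∑ i, (c i : κ) * v.e (some i))) -
      v.D.D ⟨h, hA⟩ := by
  have hp0 : (p : κ) = 0 := Pool.Agent.W177.WD.cast_zero (k := k) p κ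
  have hx0 := M.x0 t
  have hLx : ∀ i, LG v.D (M.x t i) (v.e (some i)) := fun i =>
    ⟨M.xA t i, v.hx (some i) (M.xA t i)⟩
  have hLy : LG v.D y (v.e none) := ⟨yA, v.hx none yA⟩
  have hc : ∀ i, 0 ≤ -c i ∨ (M.x t i)⁻¹ ∈ M.A t := by
    intro i
    rcases h1 i with h | h
    · left; omega
    · exact Or.inr h
  have he : ∀ i, 0 ≤ -((p : ℤ) - 1) * μ i - c i ∨ (M.x t i)⁻¹ ∈ M.A t := by
    intro i
    rcases h1 i with h | h
    · left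
      have := m0 i
      omega
    · exact Or.inr h
  have LX : LG v.D ((∏ i, M.x t i ^ (-c i)) * y ^ p)
      (∑ i, ((-c i : ℤ) : κ) * v.e (some i) + (p : κ) * v.e none) :=
    LG.mul (LG.prod _ _ _ fun i _ => (hLx i).zpow (hx0 i) _ (hc i)) (hLy.pow p)
  have LY : LG v.D ((∏ i, M.x t i ^ (-((p : ℤ) - 1) * μ i - c i)) * y)
      (∑ i, ((-((p : ℤ) - 1) * μ i - c i : ℤ) : κ) * v.e (some i) + v.e none) :=
    LG.mul (LG.prod _ _ _ fun i _ => (hLx i).zpow (hx0 i) _ (he i)) hLy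
  rw [hp0, zero_mul, add_zero] at LX
  rw [sum_split p hp0] at LY
  have e1 : (⟨_, hf⟩ : M.A t) = ⟨_, hX⟩ - ⟨_, hY⟩ - ⟨h, hA⟩ := rfl
  have e4 : ∑ i, ((-c i : ℤ) : κ) * v.e (some i) = -∑ i, (c i : κ) * v.e (some i) := by
    rw [← Finset.sum_neg_distrib]
    refine Finset.sum_congr rfl fun i _ => ?_
    push_cast
    ring
  rw [e1, map_sub, map_sub, LX.eq hX, LY.eq hY, e4]
  ring

/-- derivative of the local equation, type b -/
lemma db (p : ℕ) [CharP k p] (M : LM (⊥ : Subalgebra k N) ⊤ T I) (t : T) (y h : N) (c μ : I → ℤ)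
    (y0 : y ≠ 0) (yA : y ∈ M.A t) (hA : h ∈ M.A t) (m0 : ∀ i, 0 ≤ -((p : ℤ) - 1) * μ i)
    (h1 : ∀ i, 0 ≤ c i ∨ (M.x t i)⁻¹ ∈ M.A t) (h2 : y⁻¹ ∈ M.A t)
    (κ : Type u) [Field κ] [Algebra k κ]
    (φ : M.A t →ₐ[k] κ) (v : LT φ (ox y (M.x t)))
    (hX : (∏ i, M.x t i ^ c i) * y⁻¹ ^ p ∈ M.A t)
    (hY : (∏ i, M.x t i ^ (-((p : ℤ) - 1) * μ i)) * (y⁻¹ ^ p * y) ∈ M.A t)
    (hf : 1 - (∏ i, M.x t i ^ (-((p : ℤ) - 1) * μ i)) * (y⁻¹ ^ p * y) -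
      (∏ i, M.x t i ^ c i) * y⁻¹ ^ p * h ∈ M.A t) :
    v.D.D ⟨_, hf⟩ = -(φ ⟨_, hY⟩ * (v.e none + ∑ i, (μ i : κ) * v.e (some i))) -
      φ ⟨_, hX⟩ * om v (fun o => o.elim 0 c) hA := by
  have hp0 : (p : κ) = 0 := Pool.Agent.W177.WD.cast_zero (k := k) p κ
  have hx0 := M.x0 t
  have hLx : ∀ i, LG v.D (M.x t i) (v.e (some i)) := fun i =>
    ⟨M.xA t i, v.hx (some i) (M.xA t i)⟩
  have hLy : LG v.D y (v.e none) := ⟨yA, v.hx none yA⟩
  have LX : LG v.D ((∏ i, M.x t i ^ c i) * y⁻¹ ^ p)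
      (∑ i, (c i : κ) * v.e (some i) + (p : κ) * -v.e none) :=
    LG.mul (LG.prod _ _ _ fun i _ => (hLx i).zpow (hx0 i) _ (h1 i)) ((hLy.inv y0 h2).pow p)
  have LY : LG v.D ((∏ i, M.x t i ^ (-((p : ℤ) - 1) * μ i)) * (y⁻¹ ^ p * y))
      (∑ i, ((-((p : ℤ) - 1) * μ i : ℤ) : κ) * v.e (some i) + ((p : κ) * -v.e none + v.e none)) :=
    LG.mul (LG.prod _ _ _ fun i _ => (hLx i).zpow (hx0 i) _ (Or.inl (m0 i)))
      (((hLy.inv y0 h2).pow p).mul hLy)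
  rw [hp0, zero_mul, add_zero] at LX
  rw [sum_split' p hp0, hp0, zero_mul, zero_add] at LY
  have e1 : (⟨_, hf⟩ : M.A t) = 1 - ⟨_, hY⟩ - ⟨_, hX⟩ * ⟨h, hA⟩ := rfl
  rw [e1, map_sub, map_sub, v.D.D_one, v.D.leib, LX.eq hX, LY.eq hY, om, Fintype.sum_option]
  simp only [Option.elim_none, Option.elim_some, Int.cast_zero, zero_mul, zero_add]
  ring

end chart

end Pool.Agent.W174.WA
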